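import Pool.Agent.H35.TOR.Tor

/-!
# The torsion of a contact coordinate: the law

`ch4_fullS`: `ch4_full` for data `D` of any type. `tor`: the law form of `tor_core`.
-/

set_option autoImplicit false

namespace Pool.TOR

open Finset Real
open Pool.Agent.H49.Ent Pool.Agent.H32.Dense Pool.STK Pool.OWN68 Pool.VH64 Pool.SLW13

section chain

variable {Ω Λ Γ : Type} [Fintype Ω] {p : Ω → ℝ} (hp : IsLaw p) (L : Ω → Λ) (G : Ω → Γ)
include hp

/-- **The times of the chain are full.** -/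
theorem ch4_fullS {𝒞 𝒟 : Type} {M : ℕ} (t : Ω → ℤ) (C : Λ → 𝒞) (D : Λ → 𝒟) {e e' : ℝ}
    (ht : ∀ ω, 0 < p ω → |t ω| ≤ (M : ℤ))
    (hC : ∀ ω ω', 0 < p ω → 0 < p ω' → G ω = G ω' → C (L ω) = C (L ω'))
    (hfull : Real.log (2 * M + 1) - e ≤ CH p t L)
    (hLA : CH p (fun ω => D (L ω)) (fun ω => C (L ω)) ≤ CH p (fun ω => D (L ω)) G + e') :
    2 * Real.log (2 * M + 1) - (3 * e + 3 * e') ≤
      CH (ch4 p L G) (fun u => (t u.1.1.1.1, t u.1.1.2))
        (fun u => (t u.2, (D (L u.1.2), (D (L u.1.1.1.2), L u.1.1.1.1)))) := by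
  have p0 := hp.nonneg
  have l1 := ch1_law hp G
  have l2 := ch2_law hp L G
  have l3 := ch3_law hp L G
  have l4 := ch4_law hp L G
  set P1 := glue p p G G with hP1
  -- the first time
  have a1 : Real.log (2 * M + 1) - e - e' ≤
      CH P1 (fun w => t w.1) (fun w => (D (L w.2), L w.1)) := by
    rw [CH_two l1.nonneg (fun w => t w.1) (fun w => D (L w.2)) (fun w => L w.1)]
    have b1 : CH P1 (fun w => t w.1) (fun w => L w.1) = CH p t L := CH_gfst p0 (fun _ => rfl) t L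
    have b2 : CH p (fun ω => D (L ω)) G ≤ CH P1 (fun w => D (L w.2)) (fun w => (t w.1, L w.1)) :=
      (CH_new p0 p0 (fun _ => rfl) (fun ω => D (L ω))).trans
        (CH_mono_cond l1.nonneg fun w w' _ _ hz => by
          show (t w.1, L w.1) = (t w'.1, L w'.1)
          rw [show w.1 = w'.1 from hz])
    have b3 : CH P1 (fun w => D (L w.2)) (fun w => L w.1) ≤
        CH p (fun ω => D (L ω)) (fun ω => C (L ω)) := by
      rw [← CH_gsnd (p₁ := p) (Z₁ := G) (Z₂ := G) p0 (fun _ => rfl) (fun ω => D (L ω))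
        (fun ω => C (L ω))]
      refine CH_mono_cond l1.nonneg fun w w' hw hw' hz => ?_
      obtain ⟨c1, c2, c3⟩ := (glue_pos_iff p0 p0 w).mp hw
      obtain ⟨d1, d2, d3⟩ := (glue_pos_iff p0 p0 w').mp hw'
      show C (L w.2) = C (L w'.2)
      rw [← hC _ _ c1 c2 c3, ← hC _ _ d1 d2 d3]
      exact congrArg C hz
    linarith
  -- the law of the last velocity
  have dlow : ∀ {U : Type} (W : (Ω × Ω) × Ω → U),
      CH p (fun ω => D (L ω)) G ≤ CH (ch3 p L G) (fun u => D (L u.2)) (fun u => W u.1) := by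
    intro U W
    refine (CH_new (p₁ := ch2 p L G) (Z₁ := fun w => G w.2) (Z₂ := G) l2.nonneg p0 (ch3_Z hp L G)
      (fun ω => D (L ω))).trans ?_
    refine CH_mono_cond l3.nonneg fun w w' _ _ hz => ?_
    show W w.1 = W w'.1
    rw [show w.1 = w'.1 from hz]
  have dup : ∀ {U : Type} (W : ((Ω × Ω) × Ω) × Ω → U),
      (∀ u u', W u = W u' → L u.1.1.1 = L u'.1.1.1 ∨ L u.1.1.2 = L u'.1.1.2) →
      CH (ch3 p L G) (fun u => D (L u.2)) W ≤ CH p (fun ω => D (L ω)) (fun ω => C (L ω)) := by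
    intro U W hW
    rw [← CH_gsnd (p₁ := ch2 p L G) (Z₁ := fun w => G w.2) (Z₂ := G) p0 (ch3_Z hp L G)
      (fun ω => D (L ω)) (fun ω => C (L ω))]
    refine CH_mono_cond l3.nonneg fun u u' hu hu' hz => ?_
    obtain ⟨c1, c2, c3, c4, c5, c6, c7⟩ := ch3_pos hp L G hu
    obtain ⟨d1, d2, d3, d4, d5, d6, d7⟩ := ch3_pos hp L G hu'
    show C (L u.2) = C (L u'.2)
    have e1 : C (L u.1.1.1) = C (L u.1.1.2) := hC _ _ c1 c2 c5
    have e2 : C (L u.1.2) = C (L u.2) := hC _ _ c3 c4 c7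
    have e3 : C (L u'.1.1.1) = C (L u'.1.1.2) := hC _ _ d1 d2 d5
    have e4 : C (L u'.1.2) = C (L u'.2) := hC _ _ d3 d4 d7
    rw [← e2, ← c6, ← e4, ← d6]
    rcases hW u u' hz with h | h
    · rw [← e1, ← e3, h]
    · rw [h]
  -- the first time given all velocities
  have a2 : Real.log (2 * M + 1) - e - 2 * e' ≤ CH (ch3 p L G) (fun u => t u.1.1.1)
      (fun u => (D (L u.2), (D (L u.1.1.2), L u.1.1.1))) := by
    rw [CH_two l3.nonneg (fun u => t u.1.1.1) (fun u => D (L u.2))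
      (fun u => (D (L u.1.1.2), L u.1.1.1))]
    have b1 : CH (ch3 p L G) (fun u => t u.1.1.1) (fun u => (D (L u.1.1.2), L u.1.1.1)) =
        CH P1 (fun w => t w.1) (fun w => (D (L w.2), L w.1)) := by
      rw [← CH_gfst (p₁ := P1) (p₂ := p) (Z₁ := fun w => L w.2) (Z₂ := L) l1.nonneg (ch2_Z hp L G)
        (fun w => t w.1) (fun w => (D (L w.2), L w.1))]
      exact CH_gfst (p₁ := ch2 p L G) (p₂ := p) (Z₁ := fun w => G w.2) (Z₂ := G) l2.nonneg
        (ch3_Z hp L G) (fun w => t w.1.1) (fun w => (D (L w.1.2), L w.1.1))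
    have b2 := dlow (fun w => (t w.1.1, (D (L w.1.2), L w.1.1)))
    have b3 := dup (fun u => (D (L u.1.1.2), L u.1.1.1)) (fun u u' h => Or.inl (Prod.ext_iff.mp h).2)
    linarith
  -- the second time
  have a3 : Real.log (2 * M + 1) - e - e' ≤ CH (ch3 p L G) (fun u => t u.1.2)
      (fun u => (t u.1.1.1, (D (L u.2), (D (L u.1.1.2), L u.1.1.1)))) := by
    have b0 : CH (ch3 p L G) (fun u => t u.1.2) (fun u => (D (L u.2), u.1.1)) ≤
        CH (ch3 p L G) (fun u => t u.1.2)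
          (fun u => (t u.1.1.1, (D (L u.2), (D (L u.1.1.2), L u.1.1.1)))) := by
      refine CH_mono_cond l3.nonneg fun u u' _ _ hz => ?_
      obtain ⟨h1, h2⟩ := Prod.ext_iff.mp hz
      have h1' : D (L u.2) = D (L u'.2) := h1
      have h2' : u.1.1 = u'.1.1 := h2
      show (t u.1.1.1, (D (L u.2), (D (L u.1.1.2), L u.1.1.1))) =
        (t u'.1.1.1, (D (L u'.2), (D (L u'.1.1.2), L u'.1.1.1)))
      rw [h1', h2']
    refine le_trans ?_ b0
    rw [CH_two l3.nonneg (fun u => t u.1.2) (fun u => D (L u.2)) (fun u => u.1.1)]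
    have b1 : CH p t L ≤ CH (ch3 p L G) (fun u => t u.1.2) (fun u => u.1.1) := by
      have c1 : CH (ch3 p L G) (fun u => t u.1.2) (fun u => u.1.1) =
          CH (ch2 p L G) (fun w => t w.2) (fun w => w.1) :=
        CH_gfst (p₁ := ch2 p L G) (p₂ := p) (Z₁ := fun w => G w.2) (Z₂ := G) l2.nonneg
          (ch3_Z hp L G) (fun w => t w.2) (fun w => w.1)
      rw [c1]
      exact CH_new (p₁ := P1) (Z₁ := fun w => L w.2) (Z₂ := L) l1.nonneg p0 (ch2_Z hp L G) t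
    have b2 := dlow (fun w => (t w.2, w.1))
    have b3 := dup (fun u => u.1.1) (fun u u' h => Or.inl (by
      have h' : u.1.1 = u'.1.1 := h
      rw [h']))
    linarith
  -- both times
  have a4 : 2 * Real.log (2 * M + 1) - (2 * e + 3 * e') ≤
      CH (ch3 p L G) (fun u => (t u.1.1.1, t u.1.2))
        (fun u => (D (L u.2), (D (L u.1.1.2), L u.1.1.1))) := by
    rw [CH_chain2 l3.nonneg (fun u => t u.1.1.1) (fun u => t u.1.2)
      (fun u => (D (L u.2), (D (L u.1.1.2), L u.1.1.1)))]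
    linarith
  -- the new time
  rw [CH_two l4.nonneg (fun u => (t u.1.1.1.1, t u.1.1.2)) (fun u => t u.2)
    (fun u => (D (L u.1.2), (D (L u.1.1.1.2), L u.1.1.1.1)))]
  have b1 : CH (ch4 p L G) (fun u => (t u.1.1.1.1, t u.1.1.2))
      (fun u => (D (L u.1.2), (D (L u.1.1.1.2), L u.1.1.1.1))) =
      CH (ch3 p L G) (fun u => (t u.1.1.1, t u.1.2))
        (fun u => (D (L u.2), (D (L u.1.1.2), L u.1.1.1))) :=
    CH_gfst (p₁ := ch3 p L G) (p₂ := p) (Z₁ := fun w => L w.2) (Z₂ := L) l3.nonneg (ch4_Z hp L G)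
      (fun u => (t u.1.1.1, t u.1.2)) (fun u => (D (L u.2), (D (L u.1.1.2), L u.1.1.1)))
  have b2 : CH p t L ≤ CH (ch4 p L G) (fun u => t u.2) (fun u => ((t u.1.1.1.1, t u.1.1.2),
      (D (L u.1.2), (D (L u.1.1.1.2), L u.1.1.1.1)))) := by
    refine (CH_new (p₁ := ch3 p L G) (Z₁ := fun w => L w.2) (Z₂ := L) l3.nonneg p0 (ch4_Z hp L G)
      t).trans ?_
    refine CH_mono_cond l4.nonneg fun u u' _ _ hz => ?_
    have h' : u.1 = u'.1 := hz
    show ((t u.1.1.1.1, t u.1.1.2), (D (L u.1.2), (D (L u.1.1.1.2), L u.1.1.1.1))) =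
      ((t u'.1.1.1.1, t u'.1.1.2), (D (L u'.1.2), (D (L u'.1.1.1.2), L u'.1.1.1.1)))
    rw [h']
  have b3 : CH (ch4 p L G) (fun u => t u.2) (fun u => (D (L u.1.2), (D (L u.1.1.1.2),
      L u.1.1.1.1))) ≤ Real.log (2 * M + 1) := CH_le_box l4 _ _ fun u hu => ht _ (ch4_pos hp L G hu).2.1
  linarith

end chain

open Classical in
/-- **The torsion (Lemma TOR).** The copies of a line given the ball `G`: `TorH`, the lines: `TorL`.
The data `(E, kap)` have the same entropy given the ball and given the context `C`, and the time is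
full given the line. If the torsions of a line and of its copy differ by at least `g₀`, and the
velocities of `y` differ by at least `m₀`, on an event of mass at least `1 / R`, then for some law
`q ≤ R p` the velocity `Dc` of the contact coordinate is not few bits given `v`, `y`, `E`, the time
and `C`. -/
theorem tor {Ω Λ Γ 𝒞 : Type} [Fintype Ω] {p : Ω → ℝ} (hp : IsLaw p) {k M K V W : ℕ} (hM : 1 ≤ M)
    (hK : 1 ≤ K) (hV : 1 ≤ V) (hW : 1 ≤ W) (L : Ω → Λ) (t : Ω → ℤ) (G : Ω → Γ) (C : Λ → 𝒞)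
    (E kap : Λ → ℝ) (Dc : Λ → ℤ) (y : Λ → ℤ → ℤ) (v : Λ → ℤ → Fin k → ℤ) (h : Λ → ℤ → ℝ → ℝ)
    (m : Λ → ℤ → Fin k → ℝ) {m₀ g₀ R e e' : ℝ} (hm₀ : 0 < m₀) (hg₀ : 0 < g₀) (hR : 0 < R)
    (he : 0 ≤ e) (he' : 0 ≤ e') (ht : ∀ ω, 0 < p ω → |t ω| ≤ (M : ℤ))
    (hC : ∀ ω ω', 0 < p ω → 0 < p ω' → G ω = G ω' → C (L ω) = C (L ω'))
    (hL : ∀ ω, 0 < p ω → TorL M K V W E kap Dc h m (L ω))
    (hG : ∀ ω ω', 0 < p ω → 0 < p ω' → G ω = G ω' → TorH M K V W E y v h m (L ω) (L ω') (t ω))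
    (hfull : Real.log (2 * M + 1) - e ≤ CH p t L)
    (hLA : CH p (fun ω => (E (L ω), kap (L ω))) (fun ω => C (L ω)) ≤
      CH p (fun ω => (E (L ω), kap (L ω))) G + e')
    (hbig : 1 / R ≤ ∑ u, (if m₀ ≤ |E (L u.2) - E (L u.1.1.1)| ∧ m₀ ≤ |E (L u.2) - E (L u.1.2)| ∧
      g₀ ≤ |kap (L u.1.1.1) - kap (L u.1.1.2)| then ch3 p L G u else 0)) :
    ∃ q : Ω → ℝ, IsLaw q ∧ (∀ ω, q ω ≤ R * p ω) ∧
      2 * Real.log (2 * M + 1) - R * (3 * e + 3 * e' + Real.log 2) -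
          Real.log (16 * V * M + 4 * K + 1) - Real.log (28 * K * V * W / (m₀ * g₀) + 1) -
          Real.log (8 * K / m₀ + 1) - k * Real.log (40 * K * V + 3) ≤
        CH q (fun ω => Dc (L ω)) (fun ω => (v (L ω) (t ω), (y (L ω) (t ω),
          (E (L ω), (t ω, C (L ω)))))) := by
  have p0 := hp.nonneg
  have l3 := ch3_law hp L G
  have l4 := ch4_law hp L G
  have hR' : 0 < 1 / R := by positivity
  set E3 : ((Ω × Ω) × Ω) × Ω → Prop := fun u => m₀ ≤ |E (L u.2) - E (L u.1.1.1)| ∧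
      m₀ ≤ |E (L u.2) - E (L u.1.2)| ∧ g₀ ≤ |kap (L u.1.1.1) - kap (L u.1.1.2)| with hE3
  have el : ∑ u, (if m₀ ≤ |E (L u.2) - E (L u.1.1.1)| ∧ m₀ ≤ |E (L u.2) - E (L u.1.2)| ∧
      g₀ ≤ |kap (L u.1.1.1) - kap (L u.1.1.2)| then ch3 p L G u else 0) =
      law (ch3 p L G) E3 True := by
    unfold law
    refine Finset.sum_congr rfl fun u _ => ?_
    simp only [hE3, eq_iff_iff, iff_true]
  rw [el] at hbig
  set Ev : (((Ω × Ω) × Ω) × Ω) × Ω → Prop := fun u => E3 u.1 with hEv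
  have hEl : law (ch4 p L G) Ev True = law (ch3 p L G) E3 True :=
    law_glue_fst (p₁ := ch3 p L G) (p₂ := p) (Z₁ := fun w => L w.2) (Z₂ := L) l3.nonneg
      (ch4_Z hp L G) E3 True
  have hEc : 1 / R ≤ law (ch4 p L G) Ev True := by rw [hEl]; exact hbig
  have hE0 : 0 < law (ch4 p L G) Ev True := hR'.trans_le hEc
  set Q := Pool.Agent.H49.Ent.cond (ch4 p L G) Ev True with hQ
  have hQlaw : IsLaw Q := ⟨cond_nonneg l4.nonneg Ev True, sum_cond (ch4 p L G) Ev hE0.ne'⟩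
  have hsup : ∀ u, 0 < Q u → (0 < p u.1.1.1.1 ∧ 0 < p u.1.1.1.2 ∧ 0 < p u.1.1.2 ∧ 0 < p u.1.2 ∧
      G u.1.1.1.1 = G u.1.1.1.2 ∧ L u.1.1.1.2 = L u.1.1.2 ∧ G u.1.1.2 = G u.1.2) ∧ 0 < p u.2 ∧
      L u.1.2 = L u.2 ∧ E3 u.1 := by
    intro u hu
    obtain ⟨h1, h2⟩ := (cond_pos_iff l4.nonneg Ev True u).mp hu
    obtain ⟨h3, h4, h5⟩ := ch4_pos hp L G h1
    exact ⟨ch3_pos hp L G h3, h4, h5, of_eq_true h2⟩
  -- the times are full
  have hf := ch4_fullS hp L G t C (fun l => (E l, kap l)) ht hC hfull hLA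
  have hf2 := deficit_ev2 l4 (fun u => (t u.1.1.1.1, t u.1.1.2))
    (fun u => (t u.2, ((E (L u.1.2), kap (L u.1.2)), ((E (L u.1.1.1.2), kap (L u.1.1.1.2)),
      L u.1.1.1.1)))) (L := 2 * Real.log (2 * M + 1)) (e := 3 * e + 3 * e') hR' (by positivity)
    (fun q hq hqp => by
      have c1 := CH_subadd hq.nonneg (fun u => t u.1.1.1.1) (fun u => t u.1.1.2)
        (fun u => (t u.2, ((E (L u.1.2), kap (L u.1.2)), ((E (L u.1.1.1.2), kap (L u.1.1.1.2)),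
          L u.1.1.1.1))))
      have c2 := CH_le_box hq (fun u => t u.1.1.1.1)
        (fun u => (t u.2, ((E (L u.1.2), kap (L u.1.2)), ((E (L u.1.1.1.2), kap (L u.1.1.1.2)),
          L u.1.1.1.1)))) (M := M) fun u hu =>
          ht _ (ch3_pos hp L G (ch4_pos hp L G (hqp u hu)).1).1
      have c3 := CH_le_box hq (fun u => t u.1.1.2)
        (fun u => (t u.2, ((E (L u.1.2), kap (L u.1.2)), ((E (L u.1.1.1.2), kap (L u.1.1.1.2)),
          L u.1.1.1.1)))) (M := M) fun u hu =>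
          ht _ (ch3_pos hp L G (ch4_pos hp L G (hqp u hu)).1).2.2.1
      linarith) hf Ev hEc
  have h3 : (3 * e + 3 * e' + Real.log 2) / (1 / R) = R * (3 * e + 3 * e' + Real.log 2) := by
    field_simp
  rw [h3] at hf2
  -- the core
  have hcore := tor_core hQlaw hM hK hV hW (fun u => L u.1.1.1.1) (fun u => L u.1.1.1.2)
    (fun u => L u.1.2) (fun u => t u.1.1.1.1) (fun u => t u.1.1.2) (fun u => t u.2) E kap Dc y v h m
    hm₀ hg₀ (fun u hu => ht _ (hsup u hu).1.1) (fun u hu => ht _ (hsup u hu).1.2.2.1)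
    (fun u hu => ht _ (hsup u hu).2.1) (fun u hu => hL _ (hsup u hu).1.1)
    (fun u hu => hL _ (hsup u hu).1.2.1) (fun u hu => hL _ (hsup u hu).1.2.2.2.1)
    (fun u hu => hG _ _ (hsup u hu).1.1 (hsup u hu).1.2.1 (hsup u hu).1.2.2.2.2.1)
    (fun u hu => by
      obtain ⟨⟨a1, a2, a3, a4, a5, a6, a7⟩, -⟩ := hsup u hu
      rw [a6]
      exact hG _ _ a3 a4 a7)
    (fun u hu => (hsup u hu).2.2.2.1)
    (fun u hu => by
      obtain ⟨⟨a1, a2, a3, a4, a5, a6, a7⟩, b1, b2, b3⟩ := hsup u hu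
      show m₀ ≤ |E (L u.1.2) - E (L u.1.1.1.2)|
      rw [a6]
      exact b3.2.1)
    (fun u hu => (hsup u hu).2.2.2.2.2) hf2
  -- transfer
  obtain ⟨m1, m2, m3⟩ := marg_cond l4 (fun u : (((Ω × Ω) × Ω) × Ω) × Ω => u.2) (p := p)
    (fun ω => by
      have h := law_glue_snd (p₁ := ch3 p L G) (p₂ := p) (Z₁ := fun w => L w.2) (Z₂ := L) p0
        (ch4_Z hp L G) (fun ω => ω) ω
      refine h.trans ?_
      unfold law
      rw [Finset.sum_ite_eq']
      simp) Ev hR hEc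
  refine ⟨_, m1, m2, ?_⟩
  rw [← m3 (fun ω => Dc (L ω)) (fun ω => (v (L ω) (t ω), (y (L ω) (t ω),
    (E (L ω), (t ω, C (L ω))))))]
  have e1 : ∀ u, 0 < Q u → L u.1.2 = L u.2 := fun u hu => (hsup u hu).2.2.1
  have e2 : ∀ u, 0 < Q u → C (L u.1.1.1.1) = C (L u.2) := fun u hu => by
    obtain ⟨⟨a1, a2, a3, a4, a5, a6, a7⟩, b1, b2, b3⟩ := hsup u hu
    rw [← b2, ← hC _ _ a3 a4 a7, ← a6, ← hC _ _ a1 a2 a5]
  have h1 : CH Q (fun u => Dc (L u.1.2)) (fun u => (v (L u.1.2) (t u.2), (y (L u.1.2) (t u.2),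
      (E (L u.1.2), (t u.2, L u.1.1.1.1))))) ≤ CH Q (fun u => Dc (L u.1.2))
      (fun u => (v (L u.2) (t u.2), (y (L u.2) (t u.2), (E (L u.2), (t u.2, C (L u.2)))))) :=
    CH_mono_cond hQlaw.nonneg fun u u' hu hu' hz => by
      obtain ⟨c1, c2⟩ := Prod.ext_iff.mp hz
      obtain ⟨c3, c4⟩ := Prod.ext_iff.mp c2
      obtain ⟨c5, c6⟩ := Prod.ext_iff.mp c4
      obtain ⟨c7, c8⟩ := Prod.ext_iff.mp c6
      have d1 : v (L u.1.2) (t u.2) = v (L u'.1.2) (t u'.2) := c1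
      have d3 : y (L u.1.2) (t u.2) = y (L u'.1.2) (t u'.2) := c3
      have d5 : E (L u.1.2) = E (L u'.1.2) := c5
      have d8 : L u.1.1.1.1 = L u'.1.1.1.1 := c8
      rw [e1 u hu, e1 u' hu'] at d1 d3 d5
      refine Prod.ext d1 (Prod.ext d3 (Prod.ext d5 (Prod.ext c7 ?_)))
      show C (L u.2) = C (L u'.2)
      rw [← e2 u hu, ← e2 u' hu', d8]
  refine hcore.trans (h1.trans (le_of_eq ?_))
  refine CH_congr hQlaw.nonneg ?_ ?_ (fun _ _ _ _ h => h) (fun _ _ _ _ h => h)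
  · intro u u' hu hu' hz
    have h3 : Dc (L u.1.2) = Dc (L u'.1.2) := (Prod.ext_iff.mp hz).1
    rwa [e1 u hu, e1 u' hu'] at h3
  · intro u u' hu hu' hz
    have h3 : Dc (L u.2) = Dc (L u'.2) := (Prod.ext_iff.mp hz).1
    show Dc (L u.1.2) = Dc (L u'.1.2)
    rw [e1 u hu, e1 u' hu']
    exact h3

end Pool.TOR
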