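import Pool.Agent.H13.SLW.Mcg

/-!
# The torsion of a contact coordinate

Three lines `l₁, l₂, l₃`: `l₁, l₂` meet at the time `T₀`, `l₂, l₃` meet at the time `T₁`. `y`: the
coordinate of slope 1, `E` its velocity. `v`: the coordinates of slope 2, `m` the velocity of `v` over
`y` in the common ball. `h l τ x`: the row label of a contact coordinate at the time `τ`, at the
direction `(1, x)`; along a line its derivative is `kap l (x - E l)`, the torsion. `Dc`: the velocity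
of the contact coordinate. The map `(T₀, T₁) ↦ (y₃(t), Dc₃)` is linear, its Jacobian is
`(E₃ - E₂) (E₃ - E₁) (kap₁ - kap₂)`, and `v₃(t)` is a function of `y₃(t)`. So, if the torsions of
the copies differ, `Dc` is not few bits given `(v, y)`.
-/

set_option autoImplicit false

namespace Pool.TOR

open Finset Real
open Pool.Agent.H49.Ent Pool.Agent.H32.Dense Pool.STK Pool.OWN68 Pool.VH64 Pool.SLW13

/-- A line: `M` the number of the times, `W` the number of times per unit of `v`, `h`, `Dc`. -/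
structure TorL {Λ : Type} {k : ℕ} (M K V W : ℕ) (E kap : Λ → ℝ) (Dc : Λ → ℤ)
    (h : Λ → ℤ → ℝ → ℝ) (m : Λ → ℤ → Fin k → ℝ) (l : Λ) : Prop where
  bE : |E l| ≤ V
  bk : |kap l| ≤ V
  bm : ∀ (τ : ℤ) (i : Fin k), |τ| ≤ (M : ℤ) → |m l τ i| ≤ V
  tor : ∀ (τ τ' : ℤ) (x : ℝ), |τ| ≤ (M : ℤ) → |τ'| ≤ (M : ℤ) → |x| ≤ V →
    |(h l τ x - h l τ' x) - ((τ : ℝ) - τ') / W * (kap l * (x - E l))| ≤ K
  own : ∀ τ : ℤ, |τ| ≤ (M : ℤ) → |(Dc l : ℝ) - h l τ (E l)| ≤ K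
  frm : ∀ (τ τ' : ℤ) (i : Fin k), |τ| ≤ (M : ℤ) → |τ'| ≤ (M : ℤ) →
    |m l τ i - m l τ' i| * M ≤ K * W

/-- **A hop**: the line `l'` is a copy of `l` given the ball at the time `T`. -/
structure TorH {Λ : Type} {k : ℕ} (M K V W : ℕ) (E : Λ → ℝ) (y : Λ → ℤ → ℤ)
    (v : Λ → ℤ → Fin k → ℤ) (h : Λ → ℤ → ℝ → ℝ) (m : Λ → ℤ → Fin k → ℝ) (l l' : Λ) (T : ℤ) :
    Prop where
  yel : ∀ τ : ℤ, |τ| ≤ (M : ℤ) → |((y l' τ : ℝ) - y l τ) - (E l' - E l) * ((τ : ℝ) - T)| ≤ K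
  vel : ∀ (τ : ℤ) (i : Fin k), |τ| ≤ (M : ℤ) →
    |((v l' τ i : ℝ) - v l τ i) - m l T i * ((E l' - E l) * ((τ : ℝ) - T) / W)| ≤ K
  row : ∀ x : ℝ, |x| ≤ V → |h l' T x - h l T x| ≤ K
  frm : ∀ i : Fin k, |m l' T i - m l T i| * M ≤ K * W

theorem zcast {M : ℕ} {τ : ℤ} (h : |τ| ≤ (M : ℤ)) : |(τ : ℝ)| ≤ M := by
  rw [← Int.cast_abs]
  exact_mod_cast h

section hops

variable {Λ : Type} {k M K V W : ℕ} {E kap : Λ → ℝ} {Dc : Λ → ℤ} {y : Λ → ℤ → ℤ}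
  {v : Λ → ℤ → Fin k → ℤ} {h : Λ → ℤ → ℝ → ℝ} {m : Λ → ℤ → Fin k → ℝ} {l₁ l₂ l₃ : Λ} {T₀ T₁ t : ℤ}

/-- The displacement of `y`. -/
theorem hop_y (h12 : TorH M K V W E y v h m l₁ l₂ T₀) (h23 : TorH M K V W E y v h m l₂ l₃ T₁)
    (ht : |t| ≤ (M : ℤ)) :
    |((E l₂ - E l₁) * ((t : ℝ) - T₀) + (E l₃ - E l₂) * ((t : ℝ) - T₁)) -
      ((y l₃ t : ℝ) - y l₁ t)| ≤ 2 * K := by
  have a1 := h12.yel t ht
  have a2 := h23.yel t ht
  rw [abs_le] at a1 a2 ⊢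
  constructor <;> linarith [a1.1, a1.2, a2.1, a2.2]

theorem dis_le (hl : TorL M K V W E kap Dc h m l₁) (hl' : TorL M K V W E kap Dc h m l₂)
    (ht : |t| ≤ (M : ℤ)) (hT : |T₀| ≤ (M : ℤ)) :
    |(E l₂ - E l₁) * ((t : ℝ) - T₀)| ≤ 4 * V * M := by
  have a1 := hl.bE
  have a2 := hl'.bE
  have a3 := zcast ht
  have a4 := zcast hT
  have a5 : |E l₂ - E l₁| ≤ 2 * V := (abs_sub _ _).trans (by linarith)
  have a6 : |(t : ℝ) - T₀| ≤ 2 * M := (abs_sub _ _).trans (by linarith)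
  rw [abs_mul]
  calc |E l₂ - E l₁| * |(t : ℝ) - T₀| ≤ 2 * V * (2 * M) :=
        mul_le_mul a5 a6 (abs_nonneg _) (by positivity)
    _ = 4 * V * M := by ring

/-- The velocity of the contact coordinate. -/
theorem hop_d (hW : 1 ≤ W) (hl₁ : TorL M K V W E kap Dc h m l₁)
    (hl₂ : TorL M K V W E kap Dc h m l₂) (hl₃ : TorL M K V W E kap Dc h m l₃)
    (h12 : TorH M K V W E y v h m l₁ l₂ T₀) (h23 : TorH M K V W E y v h m l₂ l₃ T₁)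
    (h0 : |T₀| ≤ (M : ℤ)) (h1 : |T₁| ≤ (M : ℤ)) (ht : |t| ≤ (M : ℤ)) :
    |(((T₀ : ℝ) - t) * (kap l₁ * (E l₃ - E l₁)) + ((T₁ : ℝ) - T₀) * (kap l₂ * (E l₃ - E l₂))) -
      W * ((Dc l₃ : ℝ) - h l₁ t (E l₃))| ≤ 5 * K * W := by
  have hW0 : (0 : ℝ) < W := by exact_mod_cast (by omega : 0 < W)
  have a1 := hl₃.own T₁ h1
  have a2 := h23.row (E l₃) hl₃.bE
  have a3 := hl₂.tor T₁ T₀ (E l₃) h1 h0 hl₃.bE
  have a4 := h12.row (E l₃) hl₃.bE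
  have a5 := hl₁.tor T₀ t (E l₃) h0 ht hl₃.bE
  have key : |(((T₀ : ℝ) - t) / W * (kap l₁ * (E l₃ - E l₁)) +
      ((T₁ : ℝ) - T₀) / W * (kap l₂ * (E l₃ - E l₂))) - ((Dc l₃ : ℝ) - h l₁ t (E l₃))| ≤
      5 * K := by
    rw [abs_le] at a1 a2 a3 a4 a5 ⊢
    constructor <;> linarith [a1.1, a1.2, a2.1, a2.2, a3.1, a3.2, a4.1, a4.2, a5.1, a5.2]
  have e1 : (((T₀ : ℝ) - t) * (kap l₁ * (E l₃ - E l₁)) +
      ((T₁ : ℝ) - T₀) * (kap l₂ * (E l₃ - E l₂))) - W * ((Dc l₃ : ℝ) - h l₁ t (E l₃)) =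
      W * ((((T₀ : ℝ) - t) / W * (kap l₁ * (E l₃ - E l₁)) +
      ((T₁ : ℝ) - T₀) / W * (kap l₂ * (E l₃ - E l₂))) - ((Dc l₃ : ℝ) - h l₁ t (E l₃))) := by
    field_simp
  rw [e1, abs_mul, abs_of_pos hW0]
  calc (W : ℝ) * _ ≤ W * (5 * K) := mul_le_mul_of_nonneg_left key hW0.le
    _ = _ := by ring

/-- The coordinates of slope 2 are functions of `y`. -/
theorem hop_v (hM : 1 ≤ M) (hK : 1 ≤ K) (hV : 1 ≤ V) (hW : 1 ≤ W)
    (hl₁ : TorL M K V W E kap Dc h m l₁) (hl₂ : TorL M K V W E kap Dc h m l₂)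
    (hl₃ : TorL M K V W E kap Dc h m l₃) (h12 : TorH M K V W E y v h m l₁ l₂ T₀)
    (h23 : TorH M K V W E y v h m l₂ l₃ T₁) (h0 : |T₀| ≤ (M : ℤ)) (h1 : |T₁| ≤ (M : ℤ))
    (ht : |t| ≤ (M : ℤ)) (i : Fin k) :
    |(v l₃ t i : ℝ) - (v l₁ t i + m l₁ t i * (((y l₃ t : ℝ) - y l₁ t) / W))| ≤ 20 * K * V := by
  have hW0 : (0 : ℝ) < W := by exact_mod_cast (by omega : 0 < W)
  have hW1 : (1 : ℝ) ≤ W := by exact_mod_cast hW
  have hM0 : (0 : ℝ) < M := by exact_mod_cast (by omega : 0 < M)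
  have hKr : (1 : ℝ) ≤ K := by exact_mod_cast hK
  have hVr : (1 : ℝ) ≤ V := by exact_mod_cast hV
  obtain ⟨a, ha⟩ : ∃ a, a = (E l₂ - E l₁) * ((t : ℝ) - T₀) := ⟨_, rfl⟩
  obtain ⟨b, hb⟩ : ∃ b, b = (E l₃ - E l₂) * ((t : ℝ) - T₁) := ⟨_, rfl⟩
  have ba : |a| ≤ 4 * V * M := by
    rw [ha]
    exact dis_le hl₁ hl₂ ht h0
  have bb : |b| ≤ 4 * V * M := by
    rw [hb]
    exact dis_le hl₂ hl₃ ht h1
  have hy := hop_y h12 h23 ht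
  have v1 := h12.vel t i ht
  have v2 := h23.vel t i ht
  rw [← ha, ← hb] at hy
  rw [← ha] at v1
  rw [← hb] at v2
  -- a product with a difference of frames
  have hprod : ∀ {x c : ℝ}, |x| * M ≤ c * (K * W) → 0 ≤ c → ∀ {d : ℝ}, |d| ≤ 4 * V * M →
      |x * (d / W)| ≤ c * (4 * K * V) := by
    intro x c hx hc d hd
    rw [abs_mul, abs_div, abs_of_pos hW0, mul_div_assoc', div_le_iff₀ hW0]
    calc |x| * |d| ≤ |x| * (4 * V * M) := mul_le_mul_of_nonneg_left hd (abs_nonneg _)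
      _ = |x| * M * (4 * V) := by ring
      _ ≤ c * (K * W) * (4 * V) := mul_le_mul_of_nonneg_right hx (by positivity)
      _ = _ := by ring
  have f1 : |m l₁ T₀ i - m l₁ t i| * M ≤ 1 * (K * W) := by
    rw [one_mul]
    exact hl₁.frm T₀ t i h0 ht
  have f2 : |m l₂ T₁ i - m l₁ t i| * M ≤ 3 * (K * W) := by
    have g1 := hl₂.frm T₁ T₀ i h1 h0
    have g2 := h12.frm i
    have g3 := hl₁.frm T₀ t i h0 ht
    have g4 : |m l₂ T₁ i - m l₁ t i| ≤ |m l₂ T₁ i - m l₂ T₀ i| + |m l₂ T₀ i - m l₁ T₀ i| +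
        |m l₁ T₀ i - m l₁ t i| := by
      have e1 : m l₂ T₁ i - m l₁ t i = (m l₂ T₁ i - m l₂ T₀ i) + (m l₂ T₀ i - m l₁ T₀ i) +
        (m l₁ T₀ i - m l₁ t i) := by ring
      rw [e1]
      exact abs_add_three _ _ _
    have g5 := mul_le_mul_of_nonneg_right g4 hM0.le
    linarith
  have p1 := hprod f1 (by norm_num) ba
  have p2 := hprod f2 (by norm_num) bb
  have p3 : |m l₁ t i * (((a + b) - ((y l₃ t : ℝ) - y l₁ t)) / W)| ≤ 2 * K * V := by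
    have g1 := hl₁.bm t i ht
    have g2 : |((a + b) - ((y l₃ t : ℝ) - y l₁ t)) / W| ≤ 2 * K := by
      rw [abs_div, abs_of_pos hW0, div_le_iff₀ hW0]
      exact hy.trans (le_mul_of_one_le_right (by positivity) hW1)
    rw [abs_mul]
    calc |m l₁ t i| * _ ≤ V * (2 * K) := mul_le_mul g1 g2 (abs_nonneg _) (by positivity)
      _ = _ := by ring
  have e1 : (v l₃ t i : ℝ) - (v l₁ t i + m l₁ t i * (((y l₃ t : ℝ) - y l₁ t) / W)) =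
      (((v l₂ t i : ℝ) - v l₁ t i) - m l₁ T₀ i * (a / W)) +
      (((v l₃ t i : ℝ) - v l₂ t i) - m l₂ T₁ i * (b / W)) +
      (m l₁ T₀ i - m l₁ t i) * (a / W) + (m l₂ T₁ i - m l₁ t i) * (b / W) +
      m l₁ t i * (((a + b) - ((y l₃ t : ℝ) - y l₁ t)) / W) := by ring
  rw [e1]
  have hKV : (K : ℝ) ≤ K * V := le_mul_of_one_le_right (by positivity) hVr
  rw [abs_le] at v1 v2 p1 p2 p3 ⊢
  constructor <;> linarith [v1.1, v1.2, v2.1, v2.2, p1.1, p1.2, p2.1, p2.2, p3.1, p3.2]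

end hops

/-- **Two times, linear.** -/
theorem lin_two {d12 d23 k1 k2 m₀ g₀ a b V x0 x1 : ℝ} (hm₀ : 0 < m₀) (hg₀ : 0 < g₀)
    (hd : m₀ ≤ |d12 + d23|) (hk : g₀ ≤ |k1 - k2|) (hk2 : |k2| ≤ V)
    (h1 : |d12 * x0 + d23 * x1| ≤ a)
    (h2 : |x0 * (k1 * (d12 + d23)) + (x1 - x0) * (k2 * d23)| ≤ b) :
    |x0| ≤ (b + V * a) / (m₀ * g₀) := by
  have e1 : (d12 + d23) * (k1 - k2) * x0 = (x0 * (k1 * (d12 + d23)) + (x1 - x0) * (k2 * d23)) -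
      k2 * (d12 * x0 + d23 * x1) := by ring
  have h3 : |k2 * (d12 * x0 + d23 * x1)| ≤ V * a := by
    rw [abs_mul]
    exact mul_le_mul hk2 h1 (abs_nonneg _) ((abs_nonneg _).trans hk2)
  have h4 : |(d12 + d23) * (k1 - k2) * x0| ≤ b + V * a := by
    rw [e1]
    exact (abs_sub _ _).trans (by linarith)
  rw [le_div_iff₀ (by positivity)]
  rw [abs_mul, abs_mul] at h4
  calc |x0| * (m₀ * g₀) ≤ |x0| * (|d12 + d23| * |k1 - k2|) :=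
        mul_le_mul_of_nonneg_left (mul_le_mul hd hk hg₀.le (abs_nonneg _)) (abs_nonneg _)
    _ = |d12 + d23| * |k1 - k2| * |x0| := by ring
    _ ≤ _ := h4

/-- **Two times are few bits given the displacement and the velocity.** -/
theorem two_lin {Ω T : Type} [Fintype Ω] {Q : Ω → ℝ} (hQ : IsLaw Q) (T0 T1 : Ω → ℤ) (Z : Ω → T)
    (x d12 d23 k1 k2 α β : T → ℝ) {m₀ g₀ a b V : ℝ} (hm₀ : 0 < m₀) (hg₀ : 0 < g₀)
    (hd : ∀ ω, 0 < Q ω → m₀ ≤ |d12 (Z ω) + d23 (Z ω)|) (hd2 : ∀ ω, 0 < Q ω → m₀ ≤ |d23 (Z ω)|)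
    (hk : ∀ ω, 0 < Q ω → g₀ ≤ |k1 (Z ω) - k2 (Z ω)|) (hk2 : ∀ ω, 0 < Q ω → |k2 (Z ω)| ≤ V)
    (hα : ∀ ω, 0 < Q ω → |(d12 (Z ω) * (x (Z ω) - T0 ω) + d23 (Z ω) * (x (Z ω) - T1 ω)) -
      α (Z ω)| ≤ a)
    (hβ : ∀ ω, 0 < Q ω → |(((T0 ω : ℝ) - x (Z ω)) * (k1 (Z ω) * (d12 (Z ω) + d23 (Z ω))) +
      ((T1 ω : ℝ) - T0 ω) * (k2 (Z ω) * d23 (Z ω))) - β (Z ω)| ≤ b) :
    CH Q (fun ω => (T0 ω, T1 ω)) Z ≤
      Real.log (2 * ((2 * b + V * (2 * a)) / (m₀ * g₀)) + 1) + Real.log (2 * (2 * a / m₀) + 1) := by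
  have q0 := hQ.nonneg
  have hdif : ∀ ω ω', 0 < Q ω → 0 < Q ω' → Z ω = Z ω' →
      |d12 (Z ω) * (((T0 ω - T0 ω' : ℤ) : ℝ)) + d23 (Z ω) * (((T1 ω - T1 ω' : ℤ) : ℝ))| ≤ 2 * a ∧
      |(((T0 ω - T0 ω' : ℤ) : ℝ)) * (k1 (Z ω) * (d12 (Z ω) + d23 (Z ω))) +
        ((((T1 ω - T1 ω' : ℤ) : ℝ)) - (((T0 ω - T0 ω' : ℤ) : ℝ))) * (k2 (Z ω) * d23 (Z ω))| ≤
        2 * b := by
    intro ω ω' hω hω' hW
    have a1 := hα ω hω
    have a2 := hα ω' hω'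
    have b1 := hβ ω hω
    have b2 := hβ ω' hω'
    rw [← hW] at a2 b2
    push_cast
    rw [abs_le] at a1 a2 b1 b2
    constructor
    · rw [abs_le]
      constructor <;> linarith [a1.1, a1.2, a2.1, a2.2]
    · rw [abs_le]
      constructor <;> linarith [b1.1, b1.2, b2.1, b2.2]
  have c1 : CH Q T0 Z ≤ Real.log (2 * ((2 * b + V * (2 * a)) / (m₀ * g₀)) + 1) := by
    refine (CH_le_int q0 hQ.sum_one T0 Z (fun _ => (2 * b + V * (2 * a)) / (m₀ * g₀)) ?_).trans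
      (le_of_eq (Ex_const hQ.sum_one _))
    intro ω ω' hω hω' hW
    obtain ⟨h1, h2⟩ := hdif ω ω' hω hω' hW
    exact lin_two hm₀ hg₀ (hd ω hω) (hk ω hω) (hk2 ω hω) h1 h2
  have c2 : CH Q T1 (fun ω => (T0 ω, Z ω)) ≤ Real.log (2 * (2 * a / m₀) + 1) := by
    refine (CH_le_int q0 hQ.sum_one T1 (fun ω => (T0 ω, Z ω)) (fun _ => 2 * a / m₀) ?_).trans
      (le_of_eq (Ex_const hQ.sum_one _))
    intro ω ω' hω hω' hW
    obtain ⟨hW0, hW1⟩ := Prod.ext_iff.mp hW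
    simp only at hW0 hW1
    obtain ⟨h1, -⟩ := hdif ω ω' hω hω' hW1
    rw [hW0, sub_self, Int.cast_zero, mul_zero, zero_add, abs_mul] at h1
    rw [le_div_iff₀ hm₀]
    have h2 := mul_le_mul_of_nonneg_right (hd2 ω hω) (abs_nonneg (((T1 ω - T1 ω' : ℤ) : ℝ)))
    linarith
  have c3 := CH_chain2 q0 T0 T1 Z
  linarith

/-- **The torsion: the core.** -/
theorem tor_core {Ω Λ : Type} [Fintype Ω] {Q : Ω → ℝ} (hQ : IsLaw Q) {k M K V W : ℕ} (hM : 1 ≤ M)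
    (hK : 1 ≤ K) (hV : 1 ≤ V) (hW : 1 ≤ W) (L1 L2 L3 : Ω → Λ) (T0 T1 t : Ω → ℤ) (E kap : Λ → ℝ)
    (Dc : Λ → ℤ) (y : Λ → ℤ → ℤ) (v : Λ → ℤ → Fin k → ℤ) (h : Λ → ℤ → ℝ → ℝ)
    (m : Λ → ℤ → Fin k → ℝ) {m₀ g₀ e : ℝ} (hm₀ : 0 < m₀) (hg₀ : 0 < g₀)
    (h0 : ∀ ω, 0 < Q ω → |T0 ω| ≤ (M : ℤ)) (h1 : ∀ ω, 0 < Q ω → |T1 ω| ≤ (M : ℤ))
    (ht : ∀ ω, 0 < Q ω → |t ω| ≤ (M : ℤ))
    (hl1 : ∀ ω, 0 < Q ω → TorL M K V W E kap Dc h m (L1 ω))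
    (hl2 : ∀ ω, 0 < Q ω → TorL M K V W E kap Dc h m (L2 ω))
    (hl3 : ∀ ω, 0 < Q ω → TorL M K V W E kap Dc h m (L3 ω))
    (h12 : ∀ ω, 0 < Q ω → TorH M K V W E y v h m (L1 ω) (L2 ω) (T0 ω))
    (h23 : ∀ ω, 0 < Q ω → TorH M K V W E y v h m (L2 ω) (L3 ω) (T1 ω))
    (hd1 : ∀ ω, 0 < Q ω → m₀ ≤ |E (L3 ω) - E (L1 ω)|)
    (hd2 : ∀ ω, 0 < Q ω → m₀ ≤ |E (L3 ω) - E (L2 ω)|)
    (hg : ∀ ω, 0 < Q ω → g₀ ≤ |kap (L1 ω) - kap (L2 ω)|)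
    (hf : 2 * Real.log (2 * M + 1) - e ≤ CH Q (fun ω => (T0 ω, T1 ω))
      (fun ω => (t ω, ((E (L3 ω), kap (L3 ω)), ((E (L2 ω), kap (L2 ω)), L1 ω))))) :
    2 * Real.log (2 * M + 1) - e - Real.log (16 * V * M + 4 * K + 1) -
        Real.log (28 * K * V * W / (m₀ * g₀) + 1) - Real.log (8 * K / m₀ + 1) -
        k * Real.log (40 * K * V + 3) ≤
      CH Q (fun ω => Dc (L3 ω)) (fun ω => (v (L3 ω) (t ω), (y (L3 ω) (t ω),
        (E (L3 ω), (t ω, L1 ω))))) := by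
  classical
  have q0 := hQ.nonneg
  have hKr : (1 : ℝ) ≤ K := by exact_mod_cast hK
  have hVr : (1 : ℝ) ≤ V := by exact_mod_cast hV
  have hWr : (1 : ℝ) ≤ W := by exact_mod_cast hW
  set Z : Ω → ℤ × (ℝ × ℝ) × (ℝ × ℝ) × Λ :=
    fun ω => (t ω, ((E (L3 ω), kap (L3 ω)), ((E (L2 ω), kap (L2 ω)), L1 ω))) with hZ
  set X : Ω → ℤ × ℤ := fun ω => (y (L3 ω) (t ω), Dc (L3 ω)) with hX
  -- the two times
  have key := two_lin hQ T0 T1 (fun ω => (X ω, Z ω)) (fun z => (z.2.1 : ℝ))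
    (fun z => z.2.2.2.1.1 - E z.2.2.2.2) (fun z => z.2.2.1.1 - z.2.2.2.1.1)
    (fun z => kap z.2.2.2.2) (fun z => z.2.2.2.1.2)
    (fun z => (z.1.1 : ℝ) - y z.2.2.2.2 z.2.1)
    (fun z => W * ((z.1.2 : ℝ) - h z.2.2.2.2 z.2.1 z.2.2.1.1)) (m₀ := m₀) (g₀ := g₀)
    (a := 2 * K) (b := 5 * K * W) (V := V) hm₀ hg₀
    (fun ω hω => by
      have h2 := hd1 ω hω
      show m₀ ≤ |(E (L2 ω) - E (L1 ω)) + (E (L3 ω) - E (L2 ω))|
      have e1 : (E (L2 ω) - E (L1 ω)) + (E (L3 ω) - E (L2 ω)) = E (L3 ω) - E (L1 ω) := by ring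
      rw [e1]
      exact h2)
    (fun ω hω => hd2 ω hω) (fun ω hω => hg ω hω) (fun ω hω => (hl2 ω hω).bk)
    (fun ω hω => hop_y (h12 ω hω) (h23 ω hω) (ht ω hω))
    (fun ω hω => by
      have h2 := hop_d hW (hl1 ω hω) (hl2 ω hω) (hl3 ω hω) (h12 ω hω) (h23 ω hω) (h0 ω hω)
        (h1 ω hω) (ht ω hω)
      show |(((T0 ω : ℝ) - t ω) * (kap (L1 ω) * ((E (L2 ω) - E (L1 ω)) + (E (L3 ω) - E (L2 ω)))) +
        ((T1 ω : ℝ) - T0 ω) * (kap (L2 ω) * (E (L3 ω) - E (L2 ω)))) -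
        W * ((Dc (L3 ω) : ℝ) - h (L1 ω) (t ω) (E (L3 ω)))| ≤ 5 * K * W
      have e1 : (E (L2 ω) - E (L1 ω)) + (E (L3 ω) - E (L2 ω)) = E (L3 ω) - E (L1 ω) := by ring
      rw [e1]
      exact h2)
  have k1 : Real.log (2 * ((2 * (5 * K * W) + V * (2 * (2 * K))) / (m₀ * g₀)) + 1) ≤
      Real.log (28 * K * V * W / (m₀ * g₀) + 1) := by
    refine Real.log_le_log (by positivity) ?_
    have e1 : 2 * ((2 * (5 * (K : ℝ) * W) + V * (2 * (2 * K))) / (m₀ * g₀)) =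
        (20 * K * W + 8 * K * V) / (m₀ * g₀) := by ring
    rw [e1]
    have e2 : 20 * (K : ℝ) * W + 8 * K * V ≤ 28 * K * V * W := by
      have e3 : (K : ℝ) * W ≤ K * V * W := by nlinarith [mul_pos (by linarith : (0:ℝ) < K) (by linarith : (0:ℝ) < W)]
      have e4 : (K : ℝ) * V ≤ K * V * W := le_mul_of_one_le_right (by positivity) hWr
      linarith
    have e5 := div_le_div_of_nonneg_right e2 (by positivity : (0 : ℝ) ≤ m₀ * g₀)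
    linarith
  have k2 : Real.log (2 * (2 * (2 * K) / m₀) + 1) = Real.log (8 * K / m₀ + 1) := by
    congr 1
    ring
  rw [k2] at key
  have c1 : CH Q (fun ω => (T0 ω, T1 ω)) Z ≤ CH Q X Z +
      CH Q (fun ω => (T0 ω, T1 ω)) (fun ω => (X ω, Z ω)) := CH_le_add q0 _ X Z
  have c2 : CH Q X Z = CH Q (fun ω => y (L3 ω) (t ω)) Z +
      CH Q (fun ω => Dc (L3 ω)) (fun ω => (y (L3 ω) (t ω), Z ω)) :=
    CH_chain2 q0 (fun ω => y (L3 ω) (t ω)) (fun ω => Dc (L3 ω)) Z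
  -- the displacement of `y`
  have c3 : CH Q (fun ω => y (L3 ω) (t ω)) Z ≤ Real.log (16 * V * M + 4 * K + 1) := by
    have h2 := CH_fn q0 hQ.sum_one (fun ω => y (L3 ω) (t ω)) Z (fun z => y z.2.2.2 z.1)
      (8 * V * M + 2 * K) (by
        intro ω hω
        have h3 := hop_y (h12 ω hω) (h23 ω hω) (ht ω hω)
        have h4 := dis_le (hl1 ω hω) (hl2 ω hω) (ht ω hω) (h0 ω hω)
        have h5 := dis_le (hl2 ω hω) (hl3 ω hω) (ht ω hω) (h1 ω hω)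
        have h6 : ((|y (L3 ω) (t ω) - y (L1 ω) (t ω)| : ℤ) : ℝ) ≤
            ((8 * V * M + 2 * K : ℕ) : ℝ) := by
          rw [Int.cast_abs]
          push_cast
          rw [abs_le] at h3 h4 h5 ⊢
          constructor <;> linarith [h3.1, h3.2, h4.1, h4.2, h5.1, h5.2]
        exact_mod_cast h6)
    refine h2.trans (le_of_eq ?_)
    congr 1
    push_cast
    ring
  -- the coordinates of slope 2
  have c4 : CH Q (fun ω => Dc (L3 ω)) (fun ω => (y (L3 ω) (t ω), Z ω)) ≤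
      CH Q (fun ω => Dc (L3 ω)) (fun ω => (y (L3 ω) (t ω), (E (L3 ω), (t ω, L1 ω)))) :=
    CH_mono_cond q0 fun ω ω' _ _ hz => by
      obtain ⟨z1, z2⟩ := Prod.ext_iff.mp hz
      obtain ⟨z3, z4⟩ := Prod.ext_iff.mp (show Z ω = Z ω' from z2)
      obtain ⟨z5, z6⟩ := Prod.ext_iff.mp z4
      obtain ⟨z7, z8⟩ := Prod.ext_iff.mp z6
      exact Prod.ext z1 (Prod.ext (Prod.ext_iff.mp z5).1 (Prod.ext z3 z8))
  have c5 : CH Q (fun ω => Dc (L3 ω)) (fun ω => (y (L3 ω) (t ω), (E (L3 ω), (t ω, L1 ω)))) ≤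
      CH Q (fun ω => v (L3 ω) (t ω)) (fun ω => (y (L3 ω) (t ω), (E (L3 ω), (t ω, L1 ω)))) +
      CH Q (fun ω => Dc (L3 ω)) (fun ω => (v (L3 ω) (t ω), (y (L3 ω) (t ω),
        (E (L3 ω), (t ω, L1 ω))))) :=
    CH_le_add q0 _ _ _
  have c6 : CH Q (fun ω => v (L3 ω) (t ω)) (fun ω => (y (L3 ω) (t ω), (E (L3 ω), (t ω, L1 ω)))) ≤
      k * Real.log (40 * K * V + 3) := by
    have h2 := CH_le_few hQ (fun ω => v (L3 ω) (t ω))
      (fun ω => (y (L3 ω) (t ω), (E (L3 ω), (t ω, L1 ω)))) (N := (40 * K * V + 3) ^ k)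
      (fun z => Fintype.piFinset fun i => Finset.Icc
        (v z.2.2.2 z.2.2.1 i + ⌊m z.2.2.2 z.2.2.1 i * (((z.1 : ℝ) - y z.2.2.2 z.2.2.1) / W)⌋ -
          (20 * K * V + 1 : ℕ))
        (v z.2.2.2 z.2.2.1 i + ⌊m z.2.2.2 z.2.2.1 i * (((z.1 : ℝ) - y z.2.2.2 z.2.2.1) / W)⌋ +
          (20 * K * V + 1 : ℕ)))
      (fun z => by
        rw [Fintype.card_piFinset]
        refine le_of_eq ?_
        rw [Finset.prod_congr rfl (g := fun _ => 40 * K * V + 3) (fun i _ => ?_), Finset.prod_const,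
          Finset.card_univ, Fintype.card_fin]
        rw [Int.card_Icc]
        obtain ⟨c, hc⟩ : ∃ c : ℕ, c = 20 * K * V := ⟨_, rfl⟩
        have hc2 : 40 * K * V = 2 * c := by rw [hc]; ring
        rw [hc2, ← hc]
        omega)
      (fun ω hω => by
        rw [Fintype.mem_piFinset]
        intro i
        have h3 := hop_v hM hK hV hW (hl1 ω hω) (hl2 ω hω) (hl3 ω hω) (h12 ω hω) (h23 ω hω)
          (h0 ω hω) (h1 ω hω) (ht ω hω) i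
        obtain ⟨f, hf⟩ : ∃ f : ℝ, f = m (L1 ω) (t ω) i *
          (((y (L3 ω) (t ω) : ℝ) - y (L1 ω) (t ω)) / W) := ⟨_, rfl⟩
        rw [Finset.mem_Icc]
        show v (L1 ω) (t ω) i + ⌊m (L1 ω) (t ω) i *
            (((y (L3 ω) (t ω) : ℝ) - y (L1 ω) (t ω)) / W)⌋ - (20 * K * V + 1 : ℕ) ≤
            v (L3 ω) (t ω) i ∧ v (L3 ω) (t ω) i ≤ v (L1 ω) (t ω) i + ⌊m (L1 ω) (t ω) i *
            (((y (L3 ω) (t ω) : ℝ) - y (L1 ω) (t ω)) / W)⌋ + (20 * K * V + 1 : ℕ)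
        rw [← hf] at h3 ⊢
        have h4 := Int.floor_le f
        have h5 := Int.lt_floor_add_one f
        rw [abs_le] at h3
        have h6 : ((v (L1 ω) (t ω) i + ⌊f⌋ - (20 * K * V + 1 : ℕ) : ℤ) : ℝ) ≤
            ((v (L3 ω) (t ω) i : ℤ) : ℝ) := by
          push_cast
          linarith [h3.1]
        have h7 : ((v (L3 ω) (t ω) i : ℤ) : ℝ) ≤
            ((v (L1 ω) (t ω) i + ⌊f⌋ + (20 * K * V + 1 : ℕ) : ℤ) : ℝ) := by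
          push_cast
          linarith [h3.2]
        exact ⟨by exact_mod_cast h6, by exact_mod_cast h7⟩)
    refine h2.trans (le_of_eq ?_)
    push_cast
    rw [Real.log_pow]
  linarith

end Pool.TOR
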